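import Mathlib

/-!
# Job BM-1: an inner product invariant under all linear isometries of a finite-dimensional
normed space
-/

set_option autoImplicit false
set_option linter.unusedSectionVars false

noncomputable section

namespace Pool.Agent.TH55.BM

variable (M : Type) [NormedAddCommGroup M] [NormedSpace ℝ M] [FiniteDimensional ℝ M]

/-- bilinear forms -/
abbrev BF : Type := M →ₗ[ℝ] M →ₗ[ℝ] ℝ

/-- index set of the matrices -/
abbrev Ix : Type := Fin (Module.finrank ℝ M) × Fin (Module.finrank ℝ M)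

/-- the Euclidean space of matrices -/
abbrev EE : Type := EuclideanSpace ℝ (Ix M)

/-- the matrix of a form -/
def TT : BF M ≃ₗ[ℝ] EE M :=
  ((LinearMap.toMatrix₂ (Module.finBasis ℝ M) (Module.finBasis ℝ M)).trans
    (LinearEquiv.curry ℝ ℝ (Fin (Module.finrank ℝ M)) (Fin (Module.finrank ℝ M))).symm).trans
    (WithLp.linearEquiv 2 ℝ (Ix M → ℝ)).symm

variable {M}

theorem TT_apply (b : BF M) (p : Ix M) :
    TT M b p = b (Module.finBasis ℝ M p.1) (Module.finBasis ℝ M p.2) :=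
  LinearMap.toMatrix₂_apply (Module.finBasis ℝ M) (Module.finBasis ℝ M) b p.1 p.2

theorem TT_sub (a b : BF M) : TT M (a - b) = TT M a - TT M b := by
  have h : a - b + b = a := by
    ext v w
    simp
  refine eq_sub_of_add_eq ?_
  rw [← map_add, h]

/-- the action of the isometries on bilinear forms -/
def act (U : M ≃ₗᵢ[ℝ] M) (b : BF M) : BF M :=
  b.compl₁₂ (U.toLinearEquiv : M →ₗ[ℝ] M) (U.toLinearEquiv : M →ₗ[ℝ] M)

theorem act_apply (U : M ≃ₗᵢ[ℝ] M) (b : BF M) (v w : M) : act U b v w = b (U v) (U w) := rfl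

theorem act_sub (U : M ≃ₗᵢ[ℝ] M) (a b : BF M) : act U (a - b) = act U a - act U b := by
  ext v w
  simp [act_apply]

theorem act_add (U : M ≃ₗᵢ[ℝ] M) (a b : BF M) : act U (a + b) = act U a + act U b := by
  ext v w
  simp [act_apply]

theorem act_smul (U : M ≃ₗᵢ[ℝ] M) (r : ℝ) (a : BF M) : act U (r • a) = r • act U a := by
  ext v w
  simp [act_apply]

theorem act_act (U W : M ≃ₗᵢ[ℝ] M) (b : BF M) : act W (act U b) = act (W.trans U) b := by
  ext v w
  simp [act_apply]

/-- the Euclidean norm -/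
def sN (b : BF M) : ℝ := ‖TT M b‖

theorem sN_nonneg (b : BF M) : 0 ≤ sN b := norm_nonneg _

theorem sN_add_le (a b : BF M) : sN (a + b) ≤ sN a + sN b := by
  unfold sN
  rw [map_add]
  exact norm_add_le _ _

theorem coord_bound : ∃ K : ℝ, 0 ≤ K ∧ ∀ (i : Fin (Module.finrank ℝ M)) (v : M),
    |(Module.finBasis ℝ M).repr v i| ≤ K * ‖v‖ := by
  have h : ∀ i : Fin (Module.finrank ℝ M), ∃ K : ℝ, 0 ≤ K ∧ ∀ v : M,
      |(Module.finBasis ℝ M).repr v i| ≤ K * ‖v‖ := by
    intro i
    set φ : M →L[ℝ] ℝ := LinearMap.toContinuousLinearMap ((Module.finBasis ℝ M).coord i) with hφ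
    exact ⟨‖φ‖, norm_nonneg _, fun v => φ.le_opNorm v⟩
  choose K hK0 hK using h
  refine ⟨∑ i, K i, Finset.sum_nonneg fun i _ => hK0 i, fun i v => (hK i v).trans ?_⟩
  exact mul_le_mul_of_nonneg_right
    (Finset.single_le_sum (fun j _ => hK0 j) (Finset.mem_univ i)) (norm_nonneg _)

theorem form_bound : ∃ C : ℝ, 0 ≤ C ∧ ∀ (b : BF M) (v w : M), |b v w| ≤ C * ‖v‖ * ‖w‖ * sN b := by
  obtain ⟨K, hK0, hK⟩ := coord_bound (M := M)
  set e := Module.finBasis ℝ M with he
  refine ⟨∑ _i : Fin (Module.finrank ℝ M), ∑ _j : Fin (Module.finrank ℝ M), K * K,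
    Finset.sum_nonneg fun _ _ => Finset.sum_nonneg fun _ _ => by positivity, fun b v w => ?_⟩
  have h1 : b v w = ∑ i, ∑ j, e.repr v i * (e.repr w j * b (e i) (e j)) := by
    conv_lhs => rw [← e.sum_repr v, ← e.sum_repr w]
    simp only [map_sum, map_smul, LinearMap.sum_apply, LinearMap.smul_apply, smul_eq_mul,
      Finset.mul_sum]
    rw [Finset.sum_comm]
    refine Finset.sum_congr rfl fun i _ => Finset.sum_congr rfl fun j _ => ?_
    ring
  rw [h1]
  refine (Finset.abs_sum_le_sum_abs _ _).trans ?_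
  rw [Finset.sum_mul, Finset.sum_mul, Finset.sum_mul]
  refine Finset.sum_le_sum fun i _ => ?_
  refine (Finset.abs_sum_le_sum_abs _ _).trans ?_
  rw [Finset.sum_mul, Finset.sum_mul, Finset.sum_mul]
  refine Finset.sum_le_sum fun j _ => ?_
  rw [abs_mul, abs_mul]
  have h2 : |b (e i) (e j)| ≤ sN b := by
    have := PiLp.norm_apply_le (TT M b) ((i, j) : Ix M)
    rw [TT_apply] at this
    exact this
  have h3 := hK i v
  have h4 := hK j w
  have h5 : |e.repr w j| * |b (e i) (e j)| ≤ (K * ‖w‖) * sN b :=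
    mul_le_mul h4 h2 (abs_nonneg _) (by positivity)
  calc |e.repr v i| * (|e.repr w j| * |b (e i) (e j)|) ≤ (K * ‖v‖) * ((K * ‖w‖) * sN b) :=
        mul_le_mul h3 h5 (by positivity) (by positivity)
    _ = _ := by ring

theorem act_bound : ∃ C : ℝ, 0 ≤ C ∧ ∀ (U : M ≃ₗᵢ[ℝ] M) (b : BF M), sN (act U b) ≤ C * sN b := by
  obtain ⟨C, hC0, hC⟩ := form_bound (M := M)
  set e := Module.finBasis ℝ M with he
  set D : ℝ := ∑ p : Ix M, (C * ‖e p.1‖ * ‖e p.2‖) ^ 2 with hD
  have hD0 : 0 ≤ D := Finset.sum_nonneg fun _ _ => sq_nonneg _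
  refine ⟨Real.sqrt D, Real.sqrt_nonneg _, fun U b => ?_⟩
  have h1 : sN (act U b) ^ 2 ≤ D * sN b ^ 2 := by
    have h2 : sN (act U b) ^ 2 = ∑ p : Ix M, (b (U (e p.1)) (U (e p.2))) ^ 2 := by
      unfold sN
      rw [EuclideanSpace.norm_sq_eq]
      refine Finset.sum_congr rfl fun p _ => ?_
      rw [TT_apply, act_apply, Real.norm_eq_abs, sq_abs]
    rw [h2, hD, Finset.sum_mul]
    refine Finset.sum_le_sum fun p _ => ?_
    have h3 := hC b (U (e p.1)) (U (e p.2))
    rw [U.norm_map, U.norm_map] at h3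
    rw [← sq_abs, ← mul_pow]
    exact pow_le_pow_left₀ (abs_nonneg _) h3 2
  have h4 : sN (act U b) ^ 2 ≤ (Real.sqrt D * sN b) ^ 2 := by
    rw [mul_pow, Real.sq_sqrt hD0]
    exact h1
  exact (abs_le_of_sq_le_sq' h4 (mul_nonneg (Real.sqrt_nonneg _) (sN_nonneg _))).2

theorem act_lower : ∃ c : ℝ, 0 < c ∧ ∀ (U : M ≃ₗᵢ[ℝ] M) (b : BF M), c * sN b ≤ sN (act U b) := by
  obtain ⟨C, hC0, hC⟩ := act_bound (M := M)
  refine ⟨(C + 1)⁻¹, by positivity, fun U b => ?_⟩
  have h : act U.symm (act U b) = b := by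
    rw [act_act]
    ext v w
    simp [act_apply]
  have h1 := hC U.symm (act U b)
  rw [h] at h1
  rw [inv_mul_le_iff₀ (by positivity)]
  have := sN_nonneg (act U b)
  nlinarith

theorem sN_parallelogram (a b : BF M) :
    sN ((1 / 2 : ℝ) • (a + b)) ^ 2 = (sN a ^ 2 + sN b ^ 2) / 2 - sN (a - b) ^ 2 / 4 := by
  unfold sN
  rw [map_smul, map_add, TT_sub, norm_smul]
  have := parallelogram_law_with_norm ℝ (TT M a) (TT M b)
  have h : ‖(1 / 2 : ℝ)‖ = 1 / 2 := by norm_num
  rw [h, mul_pow]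
  nlinarith [this]

/-- the invariant norm -/
def NN (b : BF M) : ℝ := ⨆ U : M ≃ₗᵢ[ℝ] M, sN (act U b)

theorem bdd (b : BF M) : BddAbove (Set.range fun U : M ≃ₗᵢ[ℝ] M => sN (act U b)) := by
  obtain ⟨C, hC0, hC⟩ := act_bound (M := M)
  refine ⟨C * sN b, ?_⟩
  rintro _ ⟨U, rfl⟩
  exact hC U b

theorem le_NN (U : M ≃ₗᵢ[ℝ] M) (b : BF M) : sN (act U b) ≤ NN b := le_ciSup (bdd b) U

theorem NN_le {b : BF M} {r : ℝ} (h : ∀ U : M ≃ₗᵢ[ℝ] M, sN (act U b) ≤ r) : NN b ≤ r :=
  ciSup_le h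

theorem sN_le_NN (b : BF M) : sN b ≤ NN b := by
  have h1 : act (LinearIsometryEquiv.refl ℝ M) b = b := by
    ext v w
    simp [act_apply]
  have h2 := le_NN (LinearIsometryEquiv.refl ℝ M) b
  rwa [h1] at h2

theorem NN_nonneg (b : BF M) : 0 ≤ NN b := (sN_nonneg _).trans (sN_le_NN b)

theorem NN_act_le (U : M ≃ₗᵢ[ℝ] M) (b : BF M) : NN (act U b) ≤ NN b := by
  refine NN_le fun W => ?_
  rw [act_act]
  exact le_NN _ _

theorem NN_lip : ∃ C : ℝ, 0 ≤ C ∧ ∀ a b : BF M, NN a ≤ NN b + C * sN (a - b) := by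
  obtain ⟨C, hC0, hC⟩ := act_bound (M := M)
  refine ⟨C, hC0, fun a b => NN_le fun U => ?_⟩
  have h1 : act U a = act U b + act U (a - b) := by rw [act_sub]; abel
  rw [h1]
  exact (sN_add_le _ _).trans (add_le_add (le_NN U b) (hC U _))

theorem NN_cont : Continuous (fun A : EE M => NN ((TT M).symm A)) := by
  obtain ⟨C, hC0, hC⟩ := NN_lip (M := M)
  have h0 : ∀ A B : EE M, NN ((TT M).symm A) ≤ NN ((TT M).symm B) + C * dist A B := by
    intro A B
    have := hC ((TT M).symm A) ((TT M).symm B)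
    have h2 : sN ((TT M).symm A - (TT M).symm B) = dist A B := by
      rw [sN, TT_sub, LinearEquiv.apply_symm_apply, LinearEquiv.apply_symm_apply, dist_eq_norm]
    rwa [h2] at this
  have : LipschitzWith C.toNNReal (fun A : EE M => NN ((TT M).symm A)) := by
    refine LipschitzWith.of_dist_le_mul fun A B => ?_
    rw [Real.dist_eq, abs_le, Real.coe_toNNReal _ hC0]
    have h1 := h0 A B
    have h2 := h0 B A
    rw [dist_comm] at h2
    constructor <;> linarith
  exact this.continuous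

theorem NN_strict {a b : BF M} {m : ℝ} (ha : NN a ≤ m) (hb : NN b ≤ m)
    (hab : m ≤ NN ((1 / 2 : ℝ) • (a + b))) : a = b := by
  obtain ⟨c, hc0, hc⟩ := act_lower (M := M)
  by_contra hne
  have hd : 0 < sN (a - b) := by
    refine lt_of_le_of_ne (sN_nonneg _) fun h => hne ?_
    have h1 : TT M (a - b) = 0 := norm_eq_zero.1 h.symm
    have h2 : a - b = 0 := by
      have := congrArg (TT M).symm h1
      simpa using this
    exact sub_eq_zero.1 h2
  have hm : 0 ≤ m := (NN_nonneg a).trans ha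
  set δ := (c * sN (a - b)) ^ 2 / 4 with hδ
  have hδ0 : 0 < δ := by positivity
  have key : ∀ U : M ≃ₗᵢ[ℝ] M, sN (act U ((1 / 2 : ℝ) • (a + b))) ^ 2 ≤ m ^ 2 - δ := by
    intro U
    rw [act_smul, act_add, sN_parallelogram, ← act_sub]
    have h1 : sN (act U a) ^ 2 ≤ m ^ 2 := pow_le_pow_left₀ (sN_nonneg _) ((le_NN U a).trans ha) 2
    have h2 : sN (act U b) ^ 2 ≤ m ^ 2 := pow_le_pow_left₀ (sN_nonneg _) ((le_NN U b).trans hb) 2
    have h4 : (c * sN (a - b)) ^ 2 ≤ sN (act U (a - b)) ^ 2 :=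
      pow_le_pow_left₀ (by positivity) (hc U _) 2
    rw [hδ]
    linarith
  have h0 : 0 ≤ m ^ 2 - δ := (sq_nonneg _).trans (key (LinearIsometryEquiv.refl ℝ M))
  have h5 : NN ((1 / 2 : ℝ) • (a + b)) ≤ Real.sqrt (m ^ 2 - δ) :=
    NN_le fun U => Real.le_sqrt_of_sq_le (key U)
  have h6 : Real.sqrt (m ^ 2 - δ) < m := by
    rw [Real.sqrt_lt' (by
      rcases hm.eq_or_lt with h | h
      · rw [← h] at h0
        nlinarith
      · exact h)]
    linarith
  linarith

/-- the admissible forms -/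
def Adm (b : BF M) : Prop := (∀ v w, b v w = b w v) ∧ ∀ v, ‖v‖ ^ 2 ≤ b v v

theorem Adm_closed : IsClosed {A : EE M | Adm ((TT M).symm A)} := by
  have hc : ∀ v w : M, Continuous fun A : EE M => (TT M).symm A v w := by
    intro v w
    let φ : EE M →ₗ[ℝ] ℝ :=
      { toFun := fun A => (TT M).symm A v w
        map_add' := fun A B => by simp
        map_smul' := fun r A => by simp }
    exact φ.continuous_of_finiteDimensional
  have h1 : IsClosed {A : EE M | ∀ v w, (TT M).symm A v w = (TT M).symm A w v} := by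
    simp only [Set.ofPred_forall]
    exact isClosed_iInter fun v => isClosed_iInter fun w => isClosed_eq (hc v w) (hc w v)
  have h2 : IsClosed {A : EE M | ∀ v, ‖v‖ ^ 2 ≤ (TT M).symm A v v} := by
    simp only [Set.ofPred_forall]
    exact isClosed_iInter fun v => isClosed_le continuous_const (hc v v)
  exact h1.inter h2

theorem Adm_act {U : M ≃ₗᵢ[ℝ] M} {b : BF M} (hb : Adm b) : Adm (act U b) := by
  refine ⟨fun v w => ?_, fun v => ?_⟩
  · rw [act_apply, act_apply, hb.1]
  · rw [act_apply]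
    have := hb.2 (U v)
    rwa [U.norm_map] at this

theorem Adm_mid {a b : BF M} (ha : Adm a) (hb : Adm b) : Adm ((1 / 2 : ℝ) • (a + b)) := by
  refine ⟨fun v w => ?_, fun v => ?_⟩
  · simp [ha.1 v w, hb.1 v w]
  · have h1 := ha.2 v
    have h2 := hb.2 v
    have : ((1 / 2 : ℝ) • (a + b)) v v = (a v v + b v v) / 2 := by
      simp
      ring
    rw [this]
    linarith

theorem Adm_nonempty : ∃ b : BF M, Adm b := by
  obtain ⟨T⟩ : Nonempty (M ≃L[ℝ] EuclideanSpace ℝ (Fin (Module.finrank ℝ M))) := ⟨toEuclidean⟩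
  set D := ‖T.symm.toContinuousLinearMap‖ with hD
  have h : ∀ v : M, ‖v‖ ≤ D * ‖T v‖ := by
    intro v
    have := T.symm.toContinuousLinearMap.le_opNorm (T v)
    have h2 : T.symm.toContinuousLinearMap (T v) = v := by simp
    rwa [h2] at this
  refine ⟨LinearMap.mk₂ ℝ (fun v w => D ^ 2 * inner ℝ (T v) (T w)) (fun v v' w => ?_)
    (fun r v w => ?_) (fun v w w' => ?_) (fun r v w => ?_), ?_, ?_⟩
  · simp only [map_add, inner_add_left]; ring
  · simp only [map_smul, real_inner_smul_left, smul_eq_mul]; ring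
  · simp only [map_add, inner_add_right]; ring
  · simp only [map_smul, real_inner_smul_right, smul_eq_mul]; ring
  · intro v w
    simp [real_inner_comm]
  · intro v
    simp only [LinearMap.mk₂_apply, real_inner_self_eq_norm_sq]
    rw [← mul_pow]
    exact pow_le_pow_left₀ (norm_nonneg _) (h v) 2

/-- every finite-dimensional real normed space has an inner product which is invariant under all
its linear isometries -/
theorem exists_inv_form (M : Type) [NormedAddCommGroup M] [NormedSpace ℝ M]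
    [FiniteDimensional ℝ M] :
    ∃ β : M →ₗ[ℝ] M →ₗ[ℝ] ℝ, (∀ v w, β v w = β w v) ∧ (∀ v, v ≠ 0 → 0 < β v v) ∧
      ∀ U : M ≃ₗᵢ[ℝ] M, ∀ v w, β (U v) (U w) = β v w := by
  obtain ⟨b0, hb0⟩ := Adm_nonempty (M := M)
  set K : Set (EE M) := {A | Adm ((TT M).symm A)} ∩ {A | NN ((TT M).symm A) ≤ NN b0} with hK
  have hKc : IsClosed K := Adm_closed.inter (isClosed_le NN_cont continuous_const)
  have hKb : Bornology.IsBounded K := by
    refine (Metric.isBounded_closedBall (x := (0 : EE M)) (r := NN b0)).subset ?_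
    rintro A ⟨-, hA⟩
    rw [mem_closedBall_zero_iff]
    have h1 := sN_le_NN ((TT M).symm A)
    rw [sN, LinearEquiv.apply_symm_apply] at h1
    exact h1.trans hA
  have hKcomp : IsCompact K := Metric.isCompact_of_isClosed_isBounded hKc hKb
  have hne : K.Nonempty := by
    refine ⟨TT M b0, ?_, ?_⟩
    · show Adm _
      rwa [LinearEquiv.symm_apply_apply]
    · show NN _ ≤ NN b0
      rw [LinearEquiv.symm_apply_apply]
  obtain ⟨A, hAK, hmin⟩ := hKcomp.exists_isMinOn hne NN_cont.continuousOn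
  set b := (TT M).symm A with hb
  have hmin' : ∀ a : BF M, Adm a → NN b ≤ NN a := by
    intro a ha
    by_cases h : NN a ≤ NN b0
    · have h1 : TT M a ∈ K := by
        refine ⟨?_, ?_⟩
        · show Adm _
          rwa [LinearEquiv.symm_apply_apply]
        · show NN _ ≤ NN b0
          rwa [LinearEquiv.symm_apply_apply]
      have h2 := hmin h1
      simpa using h2
    · exact (show NN b ≤ NN b0 from hAK.2).trans (not_le.1 h).le
  have hbA : Adm b := hAK.1
  have hinv : ∀ U : M ≃ₗᵢ[ℝ] M, act U b = b := by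
    intro U
    exact NN_strict (NN_act_le U b) le_rfl (hmin' _ (Adm_mid (Adm_act hbA) hbA))
  refine ⟨b, hbA.1, fun v hv => ?_, fun U v w => ?_⟩
  · have := hbA.2 v
    have h2 : 0 < ‖v‖ := norm_pos_iff.2 hv
    exact lt_of_lt_of_le (by positivity) this
  · have := hinv U
    conv_rhs => rw [← this]
    rfl

end Pool.Agent.TH55.BM
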